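import Pool.Agent.L0h19.QE.Stm

set_option autoImplicit false

/-!
# Project QE: CNC, the number of the pairs of orthogonal integer vectors
-/

namespace Pool.Agent.L0h90.QE

open Finset Pool.Agent.L0h19.QE

/-- the pairs for which the entry `j` of the second vector is the largest -/
noncomputable def FF (T : ℕ) (j : Fin 3) : Finset ((Fin 3 → ℤ) × (Fin 3 → ℤ)) :=
  (uv T).filter (fun p => ∀ i, p.2 i ≤ p.2 j)

/-- the solutions for fixed `v` -/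
noncomputable def UU (T v₁ v₂ v₃ : ℕ) : Finset (ℤ × ℤ × ℤ) :=
  (Icc (-(T : ℤ)) T ×ˢ Icc (-(T : ℤ)) T ×ˢ Icc (-(T : ℤ)) T).filter
    (fun u : ℤ × ℤ × ℤ => u.1 * v₁ + u.2.1 * v₂ + u.2.2 * v₃ = 0)

theorem mem_uv (T : ℕ) (p : (Fin 3 → ℤ) × (Fin 3 → ℤ)) : p ∈ uv T ↔
    (∀ i, -(T : ℤ) ≤ p.1 i ∧ p.1 i ≤ T) ∧ (∀ i, 1 ≤ p.2 i ∧ p.2 i ≤ T) ∧ ∑ i, p.1 i * p.2 i = 0 := by
  unfold uv
  simp only [mem_filter, mem_product, Fintype.mem_piFinset, mem_Icc]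
  tauto

theorem uv_cover (T : ℕ) : uv T ⊆ univ.biUnion (fun j => FF T j) := by
  intro p hp
  obtain ⟨j, hj⟩ := Finite.exists_max p.2
  rw [mem_biUnion]
  exact ⟨j, mem_univ _, mem_filter.2 ⟨hp, hj⟩⟩

theorem FF_swap (T : ℕ) (j : Fin 3) : (FF T j).card ≤ (FF T 2).card := by
  apply card_le_card_of_injOn (fun p => (p.1 ∘ Equiv.swap j 2, p.2 ∘ Equiv.swap j 2))
  · intro p hp
    have hp' := mem_filter.1 (mem_coe.1 hp)
    have h1 := (mem_uv T p).1 hp'.1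
    refine mem_coe.2 (mem_filter.2 ⟨(mem_uv T _).2 ⟨fun i => h1.1 _, fun i => h1.2.1 _, ?_⟩, ?_⟩)
    · have h2 := Equiv.sum_comp (Equiv.swap j 2) (fun i => p.1 i * p.2 i)
      show ∑ i, p.1 (Equiv.swap j 2 i) * p.2 (Equiv.swap j 2 i) = 0
      rw [h2]
      exact h1.2.2
    · intro i
      show p.2 (Equiv.swap j 2 i) ≤ p.2 (Equiv.swap j 2 2)
      rw [Equiv.swap_apply_right]
      exact hp'.2 _
  · intro p _ q _ hpq
    have h1 : p.1 ∘ Equiv.swap j 2 = q.1 ∘ Equiv.swap j 2 := congrArg Prod.fst hpq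
    have h2 : p.2 ∘ Equiv.swap j 2 = q.2 ∘ Equiv.swap j 2 := congrArg Prod.snd hpq
    refine Prod.ext ?_ ?_
    · funext i
      have := congrFun h1 (Equiv.swap j 2 i)
      simpa using this
    · funext i
      have := congrFun h2 (Equiv.swap j 2 i)
      simpa using this

theorem FF_two (T : ℕ) : (FF T 2).card ≤ ∑ v₃ ∈ Icc 1 T, ∑ v₂ ∈ Icc 1 v₃, ∑ v₁ ∈ Icc 1 v₃,
    (UU T v₁ v₂ v₃).card := by
  have h0 : ∑ v₃ ∈ Icc 1 T, ∑ v₂ ∈ Icc 1 v₃, ∑ v₁ ∈ Icc 1 v₃, (UU T v₁ v₂ v₃).card =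
      ((Icc 1 T).sigma (fun v₃ => (Icc 1 v₃).sigma (fun v₂ => (Icc 1 v₃).sigma
        (fun v₁ => UU T v₁ v₂ v₃)))).card := by
    simp only [card_sigma]
  rw [h0]
  apply card_le_card_of_injOn (fun p => (⟨(p.2 2).toNat, ⟨(p.2 1).toNat, ⟨(p.2 0).toNat,
    (p.1 0, p.1 1, p.1 2)⟩⟩⟩ : Σ _ : ℕ, Σ _ : ℕ, Σ _ : ℕ, ℤ × ℤ × ℤ))
  · intro p hp
    have hp' := mem_filter.1 (mem_coe.1 hp)
    obtain ⟨h1, h2, h3⟩ := (mem_uv T p).1 hp'.1
    have h4 := hp'.2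
    rw [Fin.sum_univ_three] at h3
    have a0 := h2 0
    have a1 := h2 1
    have a2 := h2 2
    have b0 := h4 0
    have b1 := h4 1
    have c0 : ((p.2 0).toNat : ℤ) = p.2 0 := Int.toNat_of_nonneg (by omega)
    have c1 : ((p.2 1).toNat : ℤ) = p.2 1 := Int.toNat_of_nonneg (by omega)
    have c2 : ((p.2 2).toNat : ℤ) = p.2 2 := Int.toNat_of_nonneg (by omega)
    rw [mem_coe, mem_sigma, mem_sigma, mem_sigma]
    refine ⟨mem_Icc.2 ⟨?_, ?_⟩, mem_Icc.2 ⟨?_, ?_⟩, mem_Icc.2 ⟨?_, ?_⟩, ?_⟩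
    · show 1 ≤ (p.2 2).toNat
      omega
    · show (p.2 2).toNat ≤ T
      omega
    · show 1 ≤ (p.2 1).toNat
      omega
    · show (p.2 1).toNat ≤ (p.2 2).toNat
      omega
    · show 1 ≤ (p.2 0).toNat
      omega
    · show (p.2 0).toNat ≤ (p.2 2).toNat
      omega
    · show (p.1 0, p.1 1, p.1 2) ∈ UU T (p.2 0).toNat (p.2 1).toNat (p.2 2).toNat
      unfold UU
      rw [mem_filter, mem_product, mem_product, mem_Icc, mem_Icc, mem_Icc]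
      refine ⟨⟨h1 0, h1 1, h1 2⟩, ?_⟩
      show p.1 0 * ((p.2 0).toNat : ℤ) + p.1 1 * ((p.2 1).toNat : ℤ) + p.1 2 * ((p.2 2).toNat : ℤ) = 0
      rw [c0, c1, c2]
      exact h3
  · intro p hp q hq hpq
    have hp' := ((mem_uv T p).1 (mem_filter.1 (mem_coe.1 hp)).1).2.1
    have hq' := ((mem_uv T q).1 (mem_filter.1 (mem_coe.1 hq)).1).2.1
    simp only [Sigma.mk.injEq, heq_eq_eq, Prod.mk.injEq] at hpq
    obtain ⟨e2, e1, e0, f0, f1, f2⟩ := hpq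
    have a0 := hp' 0
    have a1 := hp' 1
    have a2 := hp' 2
    have b0 := hq' 0
    have b1 := hq' 1
    have b2 := hq' 2
    refine Prod.ext ?_ ?_
    · funext i
      fin_cases i
      · exact f0
      · exact f1
      · exact f2
    · funext i
      fin_cases i
      · show p.2 0 = q.2 0
        omega
      · show p.2 1 = q.2 1
        omega
      · show p.2 2 = q.2 2
        omega

theorem t_CNC : S_CNC := by
  intro hA hB T hT
  have h1 : (uv T).card ≤ ∑ j : Fin 3, (FF T j).card :=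
    (card_le_card (uv_cover T)).trans card_biUnion_le
  have h2 : ∑ j : Fin 3, (FF T j).card ≤ ∑ _j : Fin 3, (FF T 2).card :=
    sum_le_sum fun j _ => FF_swap T j
  rw [sum_const, card_univ, Fintype.card_fin, smul_eq_mul] at h2
  have h3 : ((FF T 2).card : ℝ) ≤ 9 * (T : ℝ) ^ 4 := by
    refine le_trans ?_ (hB T hT)
    refine (Nat.cast_le.2 (FF_two T)).trans ?_
    push_cast
    refine sum_le_sum fun v₃ h₃ => sum_le_sum fun v₂ h₂ => sum_le_sum fun v₁ h₁ => ?_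
    exact hA T v₁ v₂ v₃ (mem_Icc.1 h₁).1 (mem_Icc.1 h₂).1 (mem_Icc.1 h₃).1
  have h4 : ((uv T).card : ℝ) ≤ 3 * ((FF T 2).card : ℝ) := by exact_mod_cast h1.trans h2
  linarith

end Pool.Agent.L0h90.QE
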